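import Pool.Agent.Lib.H63L.FD
import Pool.Agent.Lib.H98S.K5

/-!
# H44Y, file PS0: tables in which separated edges do not cross, the local facts
-/

set_option autoImplicit false

namespace H44Y

open H53P

variable {V : Type} {T : Table V}

/-- Separated edges do not cross: `a < b < c < d` implies that `ab` and `cd` do not cross. -/
def SepT (T : Table V) (rk : V → ℕ) : Prop :=
  ∀ a b c d, rk a < rk b → rk b < rk c → rk c < rk d → T.X a b c d = false

private theorem x_self1 (a c d : V) : T.X a a c d = false := by
  cases h : T.X a a c d with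
  | false => rfl
  | true => exact absurd rfl (T.ne _ _ _ _ h).1

private theorem x_self2 (a b c : V) : T.X a b c c = false := by
  cases h : T.X a b c c with
  | false => rfl
  | true => exact absurd rfl (T.ne _ _ _ _ h).2.1

theorem SepT.x {rk : V → ℕ} (hi : Function.Injective rk) (h : SepT T rk) {a b c d : V}
    (h1 : rk a < rk c) (h2 : rk a < rk d) (h3 : rk b < rk c) (h4 : rk b < rk d) : T.X a b c d = false := by
  rcases lt_trichotomy (rk a) (rk b) with k1 | k1 | k1 <;> rcases lt_trichotomy (rk c) (rk d) with k2 | k2 | k2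
  · exact h a b c d k1 h3 k2
  · rw [hi k2]
    exact x_self2 a b d
  · rw [T.xs2]
    exact h a b d c k1 h4 k2
  · rw [hi k1]
    exact x_self1 b c d
  · rw [hi k1]
    exact x_self1 b c d
  · rw [hi k1]
    exact x_self1 b c d
  · rw [T.xs1]
    exact h b a c d k1 h1 k2
  · rw [hi k2]
    exact x_self2 a b d
  · rw [T.xs3]
    exact h b a d c k1 h2 k2

/-- (C1) lower rays and upper rays do not alternate. -/
theorem sep_alt {rk : V → ℕ} (hi : Function.Injective rk) (h : SepT T rk) {p i i' y y' : V}
    (h1 : rk i < rk p) (h2 : rk i' < rk p) (h3 : rk p < rk y) (h4 : rk p < rk y') :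
    T.alt p i i' y y' = false := by
  unfold Table.alt altX
  rw [T.xs1 p i, T.xs1 p i', h.x hi (h1.trans h3) (h1.trans h4) h3 h4,
    h.x hi (h2.trans h3) (h2.trans h4) h3 h4, h.x hi h1 (h1.trans h3) h2 (h2.trans h3),
    h.x hi h1 (h1.trans h4) h2 (h2.trans h4), h.x hi (h1.trans h3) (h1.trans h4) (h2.trans h3) (h2.trans h4)]
  rfl

/-- (C2) an edge from an upper vertex `a` to a lower vertex `b` crosses the upper rays first. -/
theorem sep_bfo {rk : V → ℕ} (hi : Function.Injective rk) (h : SepT T rk) {p a b y z : V}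
    (hb : rk b < rk p) (hz : rk z < rk p) (ha : rk p < rk a) (hy : rk p < rk y) (hay : a ≠ y) (hbz : b ≠ z)
    (cy : T.X p y a b = true) (cz : T.X p z a b = true) : T.bfo p a b y z = true := by
  have n : ∀ {u v : V}, rk u < rk v → u ≠ v := fun k e => (lt_irrefl _ (e ▸ k))
  have pa : p ≠ a := n ha
  have pb : b ≠ p := n hb
  have py : p ≠ y := n hy
  have pz : z ≠ p := n hz
  have ab : b ≠ a := n (hb.trans ha)
  have az : z ≠ a := n (hz.trans ha)
  have yb : b ≠ y := n (hb.trans hy)
  have yz : z ≠ y := n (hz.trans hy)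
  have r1 := (T.rot3 (u := p) (a := a) (b := b) (c := y) (d := z) pa.symm pb py.symm pz ab.symm hay az.symm yb hbz
    yz.symm).1
  have r2 := (T.rot3 (u := a) (a := p) (b := b) (c := y) (d := z) pa ab hay.symm az pb.symm py pz.symm yb hbz
    yz.symm).2
  -- the known values
  have k1 : T.X p a b z = false := by
    rw [T.xs4]
    exact h.x hi hb (hb.trans ha) hz (hz.trans ha)
  have k2 : T.X p y b z = false := by
    rw [T.xs4]
    exact h.x hi hb (hb.trans hy) hz (hz.trans hy)
  have k3 : T.X p b a y = false := h.x hi ha hy (hb.trans ha) (hb.trans hy)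
  have k4 : T.X p z a y = false := h.x hi ha hy (hz.trans ha) (hz.trans hy)
  have k5 : T.X a y b z = false := by
    rw [T.xs4]
    exact h.x hi (hb.trans ha) (hb.trans hy) (hz.trans ha) (hz.trans hy)
  have k6 : T.X p a b y = false := by
    have e := T.one p y b a (by rw [T.xs2]; exact cy)
    -- `X p b y a = false`
    have e2 := T.one p y a b cy
    -- `X p a y b = false`
    rw [T.xs2]
    exact e2
  have k7 : T.X p b a z = false := by
    have e := T.one p z b a (by rw [T.xs2]; exact cz)
    rw [T.xs2]
    exact e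
  have m1 : T.X a b p y = true := by rw [T.xs4]; exact cy
  have m2 : T.X a b p z = true := by rw [T.xs4]; exact cz
  have m3 : T.X a y p b = false := by rw [T.xs4]; exact k3
  have m4 : T.X a y p z = false := by rw [T.xs4]; exact k4
  have m5 : T.X a z p b = false := by rw [T.xs4]; exact k7
  have m6 : T.X a p b z = false := by rw [T.xs1]; exact k1
  have m7 : T.X p a y b = false := by rw [T.xs2]; exact k6
  have v1 : T.X a p y z = T.X p a y z := T.xs1 a p y z
  have v2 : T.X a z p y = T.X p y a z := T.xs4 a z p y
  have v3 : T.X p z y b = T.X p z b y := T.xs2 p z y b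
  have v4 : T.X a z y b = T.X a z b y := T.xs2 a z y b
  unfold Table.bfo Table.alt
  unfold altX at r1 r2 ⊢
  rw [k1, k2, k6, m1, m2, m3, m4, m5, v2, k5] at r1
  rw [k2, k3, k7, k5, m6, v1, cy] at r2
  rw [m1, m2, m7, m5, v2, v3, v4]
  revert r1 r2
  generalize T.X p a y z = u
  generalize T.X p y a z = u'
  generalize T.X p b y z = v
  generalize T.X p z b y = v'
  generalize T.X a b y z = w
  generalize T.X a z b y = w'
  revert u u' v v' w w'
  decide

end H44Y
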