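import Pool.Agent.Lib.H63L.V2

/-!
# H44Y, file PS1: a free ray in an interval of rays (abstract form)

`Z` is a set of rays which may be uncrossed. If the rays of `Z` and the other rays do not alternate and edges cross
the rays in a suitable order, some ray outside of `Z` is free.
-/

set_option autoImplicit false

namespace H44Y

open H97B H63L

variable {α : Type} [LinearOrder α] {cr : α → α → α → Prop} {nx : α → α → α → α → Prop}
  {be : α → α → α → α → Prop} {lt : α → α → α → α → α → Prop}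

/-- One step of the descent; all rays of `U` outside of `Z` are crossed, and no ray of `Z` is in the arc. -/
theorem state_stepZ (h : Fan cr nx be lt) {U : Finset α} {F : Finset (α × α)}
    (hsw : ∀ a b, (a, b) ∈ F → (b, a) ∈ F) (hFU : ∀ a b, (a, b) ∈ F → a ∈ U ∧ a ≠ b)
    (hpl : ∀ a b c d, (a, b) ∈ F → (c, d) ∈ F → ¬ SameE a b c d → nx a b c d)
    {Z : α → Prop} (hall : ∀ z ∈ U, ¬ Z z → ∃ a b, (a, b) ∈ F ∧ cr a b z) {a b r s : α}
    (hs : State cr be lt U F a b r s) (hz0 : ∀ y, Z y → ¬ In a r s y) :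
    ∃ a' b' r' s', State cr be lt U F a' b' r' s' ∧
      (∀ y, In a' r' s' y → In a r s y) ∧ ∃ t ∈ U, In a r s t ∧ ¬ In a' r' s' t := by
  classical
  obtain ⟨b1, b2, hb1, hb2, hb3, hb4⟩ := hs.blk
  obtain ⟨c0, d0, hc1, hc2, hc3⟩ := first_edge h hpl (r := s) ⟨b1, b2, hb1, hb2⟩
  have hsw' : ∀ {x y z w : α}, SameE x y z w → SameE y x z w := by
    rintro x y z w (⟨h1, h2⟩ | ⟨h1, h2⟩)
    · exact Or.inr ⟨h2, h1⟩
    · exact Or.inl ⟨h2, h1⟩
  have hsy' : ∀ {x y z w : α}, SameE x y z w → SameE z w x y := by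
    rintro x y z w (⟨h1, h2⟩ | ⟨h1, h2⟩)
    · exact Or.inl ⟨h1.symm, h2.symm⟩
    · exact Or.inr ⟨h2.symm, h1.symm⟩
  have has : a ≠ s := by
    rcases hs.sab with h1 | h1
    · rw [h1]
      exact (hFU a b hs.mem).2
    · exact (h.cne h1.1).2.1.symm
  have har : a ≠ r := (h.cne hs.rab).2.1.symm
  -- the configuration of a first edge
  have mkc : ∀ c d, (c, d) ∈ F → cr c d s →
      (∀ c' d', (c', d') ∈ F → cr c' d' s → ¬ SameE c d c' d' → ¬ lt s c' d' c d) →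
      Cfg cr nx be lt a b r s c d := by
    intro c d hcd hcs hf
    have diff : ¬ SameE a b c d := by
      intro hsame
      by_cases hsb : s = b
      · have h1 := h.cne hcs
        rcases hsame with ⟨h2, h3⟩ | ⟨h2, h3⟩
        · exact h1.2.2 (hsb.trans h3)
        · exact h1.2.1 (hsb.trans h3)
      · have hab : cr a b s := by
          rcases hs.sab with h1 | h1
          · exact absurd h1 hsb
          · exact h1.1
        have hl := hb4 hsb
        rcases hsame with ⟨h2, h3⟩ | ⟨h2, h3⟩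
        · subst h2
          subst h3
          exact hf b1 b2 hb1 hb2 hb3 hl
        · subst h2
          subst h3
          have hl2 := h.lts2 hab hb2 (hpl _ _ _ _ hs.mem hb1 hb3) hb3 hl
          exact hf b1 b2 hb1 hb2 (fun h5 => hb3 (hsw' h5)) hl2
    have hnx : nx a b c d := hpl _ _ _ _ hs.mem hcd diff
    refine ⟨(hFU a b hs.mem).2, (hFU c d hcd).2, hs.rab, hs.rs, hs.sab, hcs, hnx, diff, ?_, ?_,
      hs.nob c (hFU c d hcd).1, hs.nob d (hFU d c (hsw c d hcd)).1⟩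
    · intro hsb
      have hab : cr a b s := by
        rcases hs.sab with h1 | h1
        · exact absurd h1 hsb
        · exact h1.1
      rcases h.ltt hab hcs hnx diff with h1 | h1
      · exact absurd h1 (hf a b hs.mem hab fun h5 => diff (hsy' h5))
      · exact h1
    · intro hcr
      exact hs.free c d hcd hcr diff
  -- the first property for the reversed edge
  have frev : ∀ c d, (c, d) ∈ F → cr c d s →
      (∀ c' d', (c', d') ∈ F → cr c' d' s → ¬ SameE c d c' d' → ¬ lt s c' d' c d) →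
      (∀ c' d', (c', d') ∈ F → cr c' d' s → ¬ SameE d c c' d' → ¬ lt s c' d' d c) := by
    intro c d hcd hcs hf c' d' h1 h2 h3 h4
    have h5 := h.lts2 (h.crs hcs) h2 (hpl _ _ _ _ (hsw c d hcd) h1 h3) h3 h4
    exact hf c' d' h1 h2 (fun h6 => h3 (hsw' h6)) h5
  -- the main step
  have key : ∀ c d, (c, d) ∈ F → cr c d s →
      (∀ c' d', (c', d') ∈ F → cr c' d' s → ¬ SameE c d c' d' → ¬ lt s c' d' c d) →
      In a r s c → ¬ In a r s d →
      ∃ a' b' r' s', State cr be lt U F a' b' r' s' ∧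
        (∀ y, In a' r' s' y → In a r s y) ∧ ∃ t ∈ U, In a r s t ∧ ¬ In a' r' s' t := by
    intro c d hcd hcs hf hic hid
    have hcfg := mkc c d hcd hcs hf
    obtain ⟨r', t, hst, hr', ht⟩ := state_of_first (U := U) h (hsw c d hcd) (h.crs hcs) hs.sU
      (hFU c d hcd).1 (frev c d hcd hcs hf) (hall c (hFU c d hcd).1 (fun e => hz0 c e hic))
    have h1 : r' = s ∨ In a r s r' := by
      rcases hr' with h2 | ⟨h2, h3, h4⟩
      · exact Or.inl h2
      · exact Or.inr (h.fact2 hcfg hic hid h3 h2 h4 (hs.nob r' hst.rU))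
    have h2 : In a r s t := by
      rcases ht with h3 | ⟨h3, h4, h5⟩
      · rw [h3]
        exact hic
      · exact h.fact2 hcfg hic hid h4 h3 h5 (hs.nob t hst.sU)
    refine ⟨d, c, r', t, hst, fun y hy => ?_, t, hst.sU, h2, fun h3 => h3.2.2.1 rfl⟩
    exact arc_sub hs.rs has har hid (h.cne hcs).2.2.symm h1 h2 hst.rs hy
  rcases h.fact1 (mkc c0 d0 hc1 hc2 hc3) with ⟨h1, h2⟩ | ⟨h1, h2⟩
  · exact key c0 d0 hc1 hc2 hc3 h1 h2
  · exact key d0 c0 (hsw c0 d0 hc1) (h.crs hc2) (frev c0 d0 hc1 hc2 hc3) h1 h2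

/-- there is no state whose arc avoids `Z` -/
theorem no_stateZ (h : Fan cr nx be lt) {U : Finset α} {F : Finset (α × α)}
    (hsw : ∀ a b, (a, b) ∈ F → (b, a) ∈ F) (hFU : ∀ a b, (a, b) ∈ F → a ∈ U ∧ a ≠ b)
    (hpl : ∀ a b c d, (a, b) ∈ F → (c, d) ∈ F → ¬ SameE a b c d → nx a b c d)
    {Z : α → Prop} (hall : ∀ z ∈ U, ¬ Z z → ∃ a b, (a, b) ∈ F ∧ cr a b z) {a b r s : α}
    (hs : State cr be lt U F a b r s) (hz0 : ∀ y, Z y → ¬ In a r s y) : False := by
  classical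
  have hno : ∀ (n : ℕ) (a b r s : α), State cr be lt U F a b r s → (∀ y, Z y → ¬ In a r s y) →
      (U.filter fun y => In a r s y).card = n → False := by
    intro n
    induction n using Nat.strong_induction_on with
    | _ n ih =>
      intro a b r s hs hz0 hn
      obtain ⟨a', b', r', s', hs', hsub, t, htU, ht1, ht2⟩ := state_stepZ h hsw hFU hpl hall hs hz0
      refine ih _ ?_ a' b' r' s' hs' (fun y hy h1 => hz0 y hy (hsub _ h1)) rfl
      rw [← hn]
      refine Finset.card_lt_card ?_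
      rw [Finset.ssubset_iff_of_subset]
      · exact ⟨t, Finset.mem_filter.2 ⟨htU, ht1⟩, fun h => ht2 (Finset.mem_filter.1 h).2⟩
      · intro y hy
        obtain ⟨hy1, hy2⟩ := Finset.mem_filter.1 hy
        exact Finset.mem_filter.2 ⟨hy1, hsub y hy2⟩
  exact hno _ a b r s hs hz0 rfl

/-- A ray different from `a`, `b` is not in both arcs (end of the proof of `two_rays`). -/
theorem both_arcs (h : Fan cr nx be lt)
    (hm : ∀ {x y w z}, cr x y w → cr x y z → w ≠ z → be x y w z → ¬ Alt x y w z → Alt x z w y)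
    (hrv : ∀ {x y w z}, cr x y w → cr x y z → w ≠ z → be x y w z → be y x z w)
    {U : Finset α} {F : Finset (α × α)} {a b z z0 r1 s1 r2 s2 : α} (hcr : cr a b z)
    (ha : a ≠ z0) (hb : b ≠ z0)
    (hs1 : State cr be lt U F a b r1 s1) (hr1 : r1 = z ∨ (cr a b r1 ∧ r1 ≠ z ∧ be a b z r1))
    (ht1 : s1 = b ∨ (cr a b s1 ∧ s1 ≠ z ∧ be a b z s1))
    (hs2 : State cr be lt U F b a r2 s2) (hr2 : r2 = z ∨ (cr b a r2 ∧ r2 ≠ z ∧ be b a z r2))
    (ht2 : s2 = a ∨ (cr b a s2 ∧ s2 ≠ z ∧ be b a z s2))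
    (i1 : In a r1 s1 z0) (i2 : In b r2 s2 z0) : False := by
  have hne : a ≠ b := (h.cne hcr).1
  have hcr' : cr b a z := h.crs hcr
  -- positions along the edge
  have ge1 : ∀ u, (u = z ∨ (cr a b u ∧ u ≠ z ∧ be a b z u)) → ∀ v, (v = z ∨ (cr b a v ∧ v ≠ z ∧ be b a z v)) →
      v = u ∨ (¬ Alt a b v u → Alt a u v b) := by
    intro u hu v hv
    have hv' : v = z ∨ (cr a b v ∧ v ≠ z ∧ be a b v z) := by
      rcases hv with hv | ⟨v1, v2, v3⟩
      · exact Or.inl hv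
      · exact Or.inr ⟨h.crs v1, v2, hrv hcr' v1 v2.symm v3⟩
    rcases hu with rfl | ⟨u1, u2, u3⟩ <;> rcases hv' with rfl | ⟨v1, v2, v3⟩
    · exact Or.inl rfl
    · exact Or.inr fun h1 => hm v1 hcr v2 v3 h1
    · exact Or.inr fun h1 => hm hcr u1 u2.symm u3 h1
    · have hvu : v ≠ u := by
        rintro rfl
        exact h.bea hcr u1 u2.symm u3 v3
      exact Or.inr fun h1 => hm v1 u1 hvu (h.betr v1 hcr u1 v2 u2.symm hvu v3 u3) h1
  have c1 := h.cne hs1.rab
  have c2 := h.cne hs2.rab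
  have s1a : s1 ≠ a := by
    rcases hs1.sab with h1 | h1
    · rw [h1]
      exact hne.symm
    · exact (h.cne h1.1).2.1
  have s2b : s2 ≠ b := by
    rcases hs2.sab with h1 | h1
    · rw [h1]
      exact hne
    · exact (h.cne h1.1).2.1
  have side1 := arc_side hne c1.2.1 c1.2.2 hs1.rs s1a (by
    rcases hs1.sab with h1 | h1
    · exact Or.inl h1
    · exact Or.inr fun h2 => hm hs1.rab h1.1 hs1.rs h1.2 h2) (Ne.symm hb) i1
  have side2 := arc_side hne.symm c2.2.1 c2.2.2 hs2.rs s2b (by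
    rcases hs2.sab with h1 | h1
    · exact Or.inl h1
    · exact Or.inr fun h2 => hm hs2.rab h1.1 hs2.rs h1.2 h2) (Ne.symm ha) i2
  have fin : ∀ u, (u = z ∨ (cr a b u ∧ u ≠ z ∧ be a b z u)) → z0 ≠ u → ¬ Alt a b u z0 → Alt a z0 u b →
      ∀ v, (v = z ∨ (cr b a v ∧ v ≠ z ∧ be b a z v)) → z0 ≠ v → ¬ Alt b a v z0 → Alt b z0 v a → False := by
    intro u hu zu hu1 hu2 v hv zv hv1 hv2
    have u' : u ≠ a ∧ u ≠ b := by
      rcases hu with rfl | hu
      · exact (h.cne hcr).2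
      · exact (h.cne hu.1).2
    have v' : v ≠ a ∧ v ≠ b := by
      rcases hv with rfl | hv
      · exact (h.cne hcr).2
      · exact (h.cne (h.crs hv.1)).2
    exact side_contra hne u'.1 u'.2 v'.1 v'.2 (Ne.symm ha) (Ne.symm hb) zu zv hu1 hu2 hv1 hv2
      (ge1 u hu v hv)
  rcases side1 with ⟨p1, p2⟩ | ⟨p0, p1, p2⟩ <;> rcases side2 with ⟨q1, q2⟩ | ⟨q0, q1, q2⟩
  · exact fin r1 hr1 i1.2.1 p1 p2 r2 hr2 i2.2.1 q1 q2
  · exact fin r1 hr1 i1.2.1 p1 p2 s2 (Or.inr (ht2.resolve_left q0)) i2.2.2.1 q1 q2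
  · exact fin s1 (Or.inr (ht1.resolve_left p0)) i1.2.2.1 p1 p2 r2 hr2 i2.2.1 q1 q2
  · exact fin s1 (Or.inr (ht1.resolve_left p0)) i1.2.2.1 p1 p2 s2 (Or.inr (ht2.resolve_left q0))
      i2.2.2.1 q1 q2


/-- A FREE RAY OUTSIDE OF `Z`. -/
theorem ray_outside (h : Fan cr nx be lt)
    (hm : ∀ {x y w z}, cr x y w → cr x y z → w ≠ z → be x y w z → ¬ Alt x y w z → Alt x z w y)
    (hrv : ∀ {x y w z}, cr x y w → cr x y z → w ≠ z → be x y w z → be y x z w)
    {U : Finset α} {F : Finset (α × α)}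
    (hsw : ∀ a b, (a, b) ∈ F → (b, a) ∈ F) (hFU : ∀ a b, (a, b) ∈ F → a ∈ U ∧ a ≠ b)
    (hpl : ∀ a b c d, (a, b) ∈ F → (c, d) ∈ F → ¬ SameE a b c d → nx a b c d)
    {Z : α → Prop}
    (c1 : ∀ i i' y y', ¬ Z i → ¬ Z i' → Z y → Z y' → i ≠ i' → y ≠ y' → ¬ Alt i i' y y')
    (c2 : ∀ a b y z, Z a → ¬ Z b → Z y → ¬ Z z → cr a b y → cr a b z → be a b y z)
    (c3 : ∀ a b y, ¬ Z a → ¬ Z b → Z y → ¬ cr a b y)
    (c4 : ∀ a b z, Z a → Z b → ¬ Z z → ¬ cr a b z)
    (hU : ∃ z ∈ U, ¬ Z z) : ∃ z ∈ U, ¬ Z z ∧ ∀ a b, (a, b) ∈ F → ¬ cr a b z := by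
  classical
  by_contra hcon
  have hall : ∀ z ∈ U, ¬ Z z → ∃ a b, (a, b) ∈ F ∧ cr a b z := by
    intro z hz hne
    by_contra h1
    push Not at h1
    exact hcon ⟨z, hz, hne, h1⟩
  obtain ⟨z, hz, hzZ⟩ := hU
  obtain ⟨a, b, hab, hcr, hfree⟩ := first_edge h hpl (hall z hz hzZ)
  have hsw' : ∀ {x y z w : α}, SameE x y z w → SameE y x z w := by
    rintro x y z w (⟨h1, h2⟩ | ⟨h1, h2⟩)
    · exact Or.inr ⟨h2, h1⟩
    · exact Or.inl ⟨h2, h1⟩
  have hcr' : cr b a z := h.crs hcr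
  have hfree' : ∀ c d, (c, d) ∈ F → cr c d z → ¬ SameE b a c d → ¬ lt z c d b a := by
    intro c d h1 h2 h3 h4
    exact hfree c d h1 h2 (fun h5 => h3 (hsw' h5))
      (h.lts2 hcr' h2 (hpl _ _ _ _ (hsw a b hab) h1 h3) h3 h4)
  -- one direction
  have dir : ∀ a b, (a, b) ∈ F → cr a b z → (∀ c d, (c, d) ∈ F → cr c d z → ¬ SameE a b c d → ¬ lt z c d a b) →
      ¬ Z b → ∃ r s, State cr be lt U F a b r s ∧ (r = z ∨ (cr a b r ∧ r ≠ z ∧ be a b z r)) ∧
      (s = b ∨ (cr a b s ∧ s ≠ z ∧ be a b z s)) ∧ ¬ Z r ∧ ¬ Z s := by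
    intro a b hab hcr hfree hb
    have hbU : b ∈ U := (hFU b a (hsw a b hab)).1
    obtain ⟨r, s, hs, hr, ht⟩ := state_of_first h hab hcr hz hbU hfree (hall b hbU hb)
    have key : ∀ x, cr a b x → x ≠ z → be a b z x → ¬ Z x := by
      intro x h1 h2 h3 h4
      by_cases ha : Z a
      · exact h.bea hcr h1 h2.symm h3 (c2 a b x z ha hb h4 hzZ h1 hcr)
      · exact c3 a b x ha hb h4 h1
    refine ⟨r, s, hs, hr, ht, ?_, ?_⟩
    · rcases hr with h1 | ⟨h1, h2, h3⟩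
      · rw [h1]
        exact hzZ
      · exact key r h1 h2 h3
    · rcases ht with h1 | ⟨h1, h2, h3⟩
      · rw [h1]
        exact hb
      · exact key s h1 h2 h3
  -- an end in `Z`
  have one : ∀ a b, (a, b) ∈ F → cr a b z → (∀ c d, (c, d) ∈ F → cr c d z → ¬ SameE a b c d → ¬ lt z c d a b) →
      ¬ Z b → Z a → False := by
    intro a b hab hcr hfree hb ha
    obtain ⟨r, s, hs, -, -, hr, ht⟩ := dir a b hab hcr hfree hb
    refine no_stateZ h hsw hFU hpl hall hs fun y hy hi => ?_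
    exact c1 r s y a hr ht hy ha hs.rs hi.1 hi.2.2.2
  by_cases ha : Z a
  · by_cases hb : Z b
    · exact c4 a b z ha hb hzZ hcr
    · exact one a b hab hcr hfree hb ha
  · by_cases hb : Z b
    · exact one b a (hsw a b hab) hcr' hfree' ha hb
    · obtain ⟨r1, s1, hs1, hr1, ht1, zr1, zs1⟩ := dir a b hab hcr hfree hb
      obtain ⟨r2, s2, hs2, hr2, ht2, zr2, zs2⟩ := dir b a (hsw a b hab) hcr' hfree' ha
      refine no_stateZ h hsw hFU hpl hall hs1 fun y hy hi => ?_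
      refine no_stateZ h hsw hFU hpl hall hs2 fun y' hy' hi' => ?_
      have hne : ∀ {x}, ¬ Z x → x ≠ y := fun hx e => hx (e ▸ hy)
      have hi2 : In b r2 s2 y := by
        by_cases e : y = y'
        · rw [e]
          exact hi'
        · have h1 := c1 r2 s2 y y' zr2 zs2 hy hy' hs2.rs e
          have h2 := hi'.2.2.2
          refine ⟨(hne hb).symm, (hne zr2).symm, (hne zs2).symm, ?_⟩
          unfold Alt at *
          tauto
      exact both_arcs h hm hrv hcr (hne ha) (hne hb) hs1 hr1 ht1 hs2 hr2 ht2 hi hi2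

end H44Y
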