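import Pool.Agent.Lib.H63L.V3
import Pool.Agent.Lib.H44Y.PS0
import Pool.Agent.Lib.H44Y.PS1

/-!
# H44Y, file PS2: every vertex sees a smaller vertex (tables in which separated edges do not cross)
-/

set_option autoImplicit false

namespace H44Y

open H53P H63L H98P H98Z

variable {V : Type} [Fintype V] [DecidableEq V]

/-- (PS) In a table in which separated edges do not cross, past every plane set `F` of edges of `W` without `p` the
vertex `p` sees a smaller vertex of `W`. -/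
theorem ps (T : Table V) {rk : V → ℕ} (hi : Function.Injective rk) (hS : SepT T rk) {W : Finset V} {p : V}
    {F : Finset (Sym2 V)} (hF : ∀ a b, s(a, b) ∈ F → a ∈ W ∧ a ≠ p ∧ b ≠ p ∧ a ≠ b) (hpl : Plane (crossT T) F)
    (hp : ∃ i ∈ W, rk i < rk p) : ∃ i ∈ W, rk i < rk p ∧ ∀ f ∈ F, ¬ crossT T s(p, i) f := by
  classical
  obtain ⟨q, hqW, hq⟩ := hp
  have hqp : q ≠ p := fun e => lt_irrefl _ (e ▸ hq)
  obtain ⟨ρ, hρ, -⟩ := T.ord_exists hqp.symm
  letI := alOrd hρ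
  obtain ⟨F', hF'e⟩ : ∃ F' : Finset (Al p × Al p),
      F' = (Finset.univ ×ˢ Finset.univ).filter (fun e => s(e.1.1, e.2.1) ∈ F) := ⟨_, rfl⟩
  have m : ∀ a b : Al p, (a, b) ∈ F' ↔ s(a.1, b.1) ∈ F := by
    intro a b
    rw [hF'e, Finset.mem_filter, Finset.mem_product]
    simp
  have g1 : ∀ a b, (a, b) ∈ F' → (b, a) ∈ F' := by
    intro a b h
    rw [m] at h ⊢
    rw [Sym2.eq_swap]
    exact h
  obtain ⟨U, hUe⟩ : ∃ U : Finset (Al p), U = W.subtype (fun x => x ≠ p) := ⟨_, rfl⟩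
  have g2 : ∀ a b, (a, b) ∈ F' → a ∈ U ∧ a ≠ b := by
    intro a b h
    rw [m] at h
    refine ⟨?_, ?_⟩
    · rw [hUe, Finset.mem_subtype]
      exact (hF _ _ h).1
    · intro hab
      exact (hF _ _ h).2.2.2 (congrArg Subtype.val hab)
  have g3 : ∀ a b c d, (a, b) ∈ F' → (c, d) ∈ F' → ¬ SameE a b c d → fnx T p a b c d := by
    intro a b c d h1 h2 _
    rw [m] at h1 h2
    unfold fnx
    rw [← Bool.not_eq_true, ← crossT_mk]
    exact hpl _ h1 _ h2
  have lo : ∀ x : Al p, ¬ rk p < rk x.1 → rk x.1 < rk p := by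
    intro x hx
    rcases lt_trichotomy (rk x.1) (rk p) with h | h | h
    · exact h
    · exact absurd (hi h) x.2
    · exact absurd h hx
  have sn : ∀ {x y : Al p}, x ≠ y → x.1 ≠ y.1 := fun h e => h (Subtype.ext e)
  have fin : ∀ z : Al p, (∀ a b, (a, b) ∈ F' → ¬ cr T p a b z) → ∀ f ∈ F, ¬ crossT T s(p, z.1) f := by
    intro z hfree f hf
    induction f using Sym2.ind with
    | _ a b =>
      have h1 := hF a b hf
      rw [crossT_mk]
      intro h2
      refine hfree ⟨a, h1.2.1⟩ ⟨b, h1.2.2.1⟩ ?_ h2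
      rw [m]
      exact hf
  obtain ⟨z, hzU, hz, hfree⟩ := ray_outside (al_fan hρ)
    (fun h1 h2 h3 h4 => fbe_mono hρ h1 h2 h3 h4) (fun h1 h2 h3 h4 => fbe_rev h1 h2 h3 h4)
    (U := U) (F := F') g1 g2 g3 (Z := fun x => rk p < rk x.1)
    (by
      intro i i' y y' h1 h2 h3 h4 h5 h6 h7
      have k1 := lo i h1
      have k2 := lo i' h2
      have e1 : i ≠ y := fun e => h1 (e ▸ h3)
      have e2 : i ≠ y' := fun e => h1 (e ▸ h4)
      have e3 : i' ≠ y := fun e => h2 (e ▸ h3)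
      have e4 : i' ≠ y' := fun e => h2 (e ▸ h4)
      rw [al_alt hρ h5 e1 e2 e3 e4 h6, sep_alt hi hS k1 k2 h3 h4] at h7
      exact Bool.noConfusion h7)
    (by
      intro a b y z h1 h2 h3 h4 h5 h6
      have e1 : a ≠ y := fun e => (cr_ne h5).2.1 e.symm
      have e2 : b ≠ z := fun e => (cr_ne h6).2.2 e.symm
      exact sep_bfo hi hS (lo b h2) (lo z h4) h1 h3 (sn e1) (sn e2) h5 h6)
    (by
      intro a b y h1 h2 h3 h4
      have k1 := lo a h1
      have k2 := lo b h2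
      have h5 : T.X p y.1 a.1 b.1 = true := h4
      rw [T.xs4, hS.x hi k1 (k1.trans h3) k2 (k2.trans h3)] at h5
      exact Bool.noConfusion h5)
    (by
      intro a b z h1 h2 h3 h4
      have k3 := lo z h3
      have h5 : T.X p z.1 a.1 b.1 = true := h4
      rw [hS.x hi h1 h2 (k3.trans h1) (k3.trans h2)] at h5
      exact Bool.noConfusion h5)
    ⟨⟨q, hqp⟩, by rw [hUe, Finset.mem_subtype]; exact hqW, fun h => lt_asymm h hq⟩
  rw [hUe, Finset.mem_subtype] at hzU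
  exact ⟨z.1, hzU, lo z hz, fin z hfree⟩

/-- ACYCLICITY. All edges of `L` are edges of `W`, and all edges from `p` to smaller vertices of `W` are in `L`.
Then the complex of the plane subsets of `L` is acyclic. -/
theorem acy_sep (T : Table V) {rk : V → ℕ} (hi : Function.Injective rk) (hS : SepT T rk) {W : Finset V} {p : V}
    {L : Finset (Sym2 V)} (hL : ∀ a b, s(a, b) ∈ L → a ∈ W ∧ a ≠ b) (hp : ∃ i ∈ W, rk i < rk p)
    (hlow : ∀ i ∈ W, rk i < rk p → s(p, i) ∈ L) : Acy (crossT T) L := by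
  classical
  intro z hz hb
  refine acyclic (S := L.filter fun e => p ∈ e) (crossT_symm T) (Finset.filter_subset _ _) ?_ ?_ hz hb
  · intro e he f hf
    obtain ⟨a, rfl⟩ := (Finset.mem_filter.1 he).2
    obtain ⟨b, rfl⟩ := (Finset.mem_filter.1 hf).2
    exact crossT_adj T p a b
  · intro F hF hFp
    have h1 : ∀ a b, s(a, b) ∈ F → a ∈ W ∧ a ≠ p ∧ b ≠ p ∧ a ≠ b := by
      intro a b hab
      obtain ⟨h2, h3⟩ := Finset.mem_sdiff.1 (hF hab)
      have h4 : p ∉ s(a, b) := fun h => h3 (Finset.mem_filter.2 ⟨h2, h⟩)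
      exact ⟨(hL a b h2).1, fun e => h4 (e ▸ Sym2.mem_mk_left a b), fun e => h4 (e ▸ Sym2.mem_mk_right a b),
        (hL a b h2).2⟩
    obtain ⟨i, hiW, h2, h3⟩ := ps T hi hS h1 hFp hp
    exact ⟨s(p, i), Finset.mem_filter.2 ⟨hlow i hiW h2, Sym2.mem_mk_left p i⟩, h3⟩

open Classical in
/-- The edges from a vertex of `A` to a larger vertex of `B`. -/
noncomputable def DAB (rk : V → ℕ) (A B : Finset V) : Finset (Sym2 V) :=
  Finset.univ.filter fun e => ∃ a ∈ A, ∃ b ∈ B, rk a < rk b ∧ e = s(a, b)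

theorem mem_dab {rk : V → ℕ} {A B : Finset V} {e : Sym2 V} :
    e ∈ DAB rk A B ↔ ∃ a ∈ A, ∃ b ∈ B, rk a < rk b ∧ e = s(a, b) := by
  unfold DAB
  rw [Finset.mem_filter]
  exact ⟨fun h => h.2, fun h => ⟨Finset.mem_univ _, h⟩⟩

/-- THE CLAIM OF THEOREM S: the plane sets of edges from `A` up to `B` form an acyclic complex. -/
theorem acy_dab (T : Table V) {rk : V → ℕ} (hi : Function.Injective rk) (hS : SepT T rk) {A B : Finset V}
    (h : ∃ a ∈ A, ∃ b ∈ B, rk a < rk b) : Acy (crossT T) (DAB rk A B) := by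
  classical
  obtain ⟨a0, ha0, b0, hb0, hab0⟩ := h
  -- the smallest head
  obtain ⟨H, hH⟩ : ∃ H : Finset V, H = B.filter fun b => ∃ a ∈ A, rk a < rk b := ⟨_, rfl⟩
  have hHn : H.Nonempty := ⟨b0, by rw [hH]; exact Finset.mem_filter.2 ⟨hb0, a0, ha0, hab0⟩⟩
  obtain ⟨p, hpH, hpmin⟩ := Finset.exists_min_image H rk hHn
  rw [hH] at hpH
  obtain ⟨hpB, a1, ha1, ha1p⟩ := Finset.mem_filter.1 hpH
  obtain ⟨W, hW⟩ : ∃ W : Finset V, W = A ∪ H := ⟨_, rfl⟩
  refine acy_sep T hi hS (W := W) (p := p) ?_ ⟨a1, by rw [hW]; exact Finset.mem_union_left _ ha1, ha1p⟩ ?_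
  · intro a b hab
    obtain ⟨x, hx, y, hy, hxy, he⟩ := mem_dab.1 hab
    have hne : x ≠ y := fun e => lt_irrefl _ (e ▸ hxy)
    have hxW : x ∈ W := by
      rw [hW]
      exact Finset.mem_union_left _ hx
    have hyW : y ∈ W := by
      rw [hW, hH]
      exact Finset.mem_union_right _ (Finset.mem_filter.2 ⟨hy, x, hx, hxy⟩)
    rcases Sym2.eq_iff.1 he with ⟨h1, h2⟩ | ⟨h1, h2⟩
    · rw [h1, h2]
      exact ⟨hxW, hne⟩
    · rw [h1, h2]
      exact ⟨hyW, hne.symm⟩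
  · intro i hiW hip
    have hiA : i ∈ A := by
      rw [hW] at hiW
      rcases Finset.mem_union.1 hiW with h1 | h1
      · exact h1
      · exact absurd (hpmin i h1) (not_le.2 hip)
    rw [mem_dab]
    exact ⟨i, hiA, p, hpB, hip, Sym2.eq_swap⟩

end H44Y
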